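import Mathlib

set_option autoImplicit false
open Finset

namespace Pool.Agent.H900Z

/-- distance from `a` to the top of `T` -/
def upZ (T : Finset ℤ) (a : ℤ) : ℕ := T.sup (fun b => (b - a).toNat)
/-- distance from `a` to the bottom of `T` -/
def dnZ (T : Finset ℤ) (a : ℤ) : ℕ := T.sup (fun b => (a - b).toNat)
/-- discrete arcsine weight -/
noncomputable def wZ (T : Finset ℤ) (a : ℤ) : ℝ :=
  1 / Real.sqrt ((1 + (upZ T a : ℝ)) * (1 + (dnZ T a : ℝ)))

lemma wZ_nonneg (T : Finset ℤ) (a : ℤ) : 0 ≤ wZ T a := by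
  unfold wZ; positivity

lemma sum_inv_sqrt (n : ℕ) : ∑ j ∈ range n, 1 / Real.sqrt (1 + (j : ℝ)) ≤ 2 * Real.sqrt n := by
  induction n with
  | zero => simp
  | succ n ih =>
    rw [sum_range_succ]
    have h1 : 0 < Real.sqrt (1 + (n : ℝ)) := Real.sqrt_pos.2 (by positivity)
    have h2 : Real.sqrt (1 + (n : ℝ)) ^ 2 = 1 + n := Real.sq_sqrt (by positivity)
    have h3 : Real.sqrt (n : ℝ) ^ 2 = n := Real.sq_sqrt (by positivity)
    have h4 : 0 ≤ Real.sqrt (n : ℝ) := Real.sqrt_nonneg _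
    have h5 : 1 / Real.sqrt (1 + (n : ℝ)) ≤ 2 * Real.sqrt (1 + (n : ℝ)) - 2 * Real.sqrt n := by
      rw [div_le_iff₀ h1]
      nlinarith [sq_nonneg (Real.sqrt (1 + (n : ℝ)) - Real.sqrt n)]
    have h6 : ((n + 1 : ℕ) : ℝ) = 1 + n := by push_cast; ring
    rw [h6]; linarith

lemma inv_sqrt_mul_le (A B : ℝ) (hA : 0 < A) (hB : 0 < B) :
    1 / Real.sqrt (A * B) ≤ (1 / Real.sqrt A + 1 / Real.sqrt B) / Real.sqrt (A + B) := by
  have ha : 0 < Real.sqrt A := Real.sqrt_pos.2 hA
  have hb : 0 < Real.sqrt B := Real.sqrt_pos.2 hB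
  have hc : 0 < Real.sqrt (A + B) := Real.sqrt_pos.2 (by positivity)
  have h1 : Real.sqrt (A + B) ≤ Real.sqrt A + Real.sqrt B := by
    rw [Real.sqrt_le_iff]
    refine ⟨by positivity, ?_⟩
    have := Real.sq_sqrt hA.le
    have := Real.sq_sqrt hB.le
    nlinarith [mul_pos ha hb]
  rw [Real.sqrt_mul hA.le, le_div_iff₀ hc]
  have : 1 / Real.sqrt A + 1 / Real.sqrt B = 1 / (Real.sqrt A * Real.sqrt B) * (Real.sqrt A + Real.sqrt B) := by
    field_simp; ring
  rw [this]
  exact mul_le_mul_of_nonneg_left h1 (by positivity)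

lemma sum_inj_le (T : Finset ℤ) (g : ℤ → ℕ) (n : ℕ) (hinj : Set.InjOn g T) (hg : ∀ a ∈ T, g a < n) :
    ∑ a ∈ T, 1 / Real.sqrt (1 + (g a : ℝ)) ≤ 2 * Real.sqrt n := by
  classical
  rw [← Finset.sum_image (f := fun j : ℕ => 1 / Real.sqrt (1 + (j : ℝ))) hinj]
  refine le_trans ?_ (sum_inv_sqrt n)
  apply sum_le_sum_of_subset_of_nonneg
  · intro j hj
    obtain ⟨a, ha, rfl⟩ := mem_image.1 hj
    exact mem_range.2 (hg a ha)
  · intros; positivity

lemma upZ_eq (T : Finset ℤ) (hT : T.Nonempty) (a : ℤ) : upZ T a = (T.max' hT - a).toNat := by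
  apply le_antisymm
  · apply Finset.sup_le
    intro b hb
    have := T.le_max' b hb
    omega
  · exact Finset.le_sup (f := fun b => (b - a).toNat) (T.max'_mem hT)

lemma dnZ_eq (T : Finset ℤ) (hT : T.Nonempty) (a : ℤ) : dnZ T a = (a - T.min' hT).toNat := by
  apply le_antisymm
  · apply Finset.sup_le
    intro b hb
    have := T.min'_le b hb
    omega
  · exact Finset.le_sup (f := fun b => (a - b).toNat) (T.min'_mem hT)

lemma sum_wZ_le (T : Finset ℤ) : ∑ a ∈ T, wZ T a ≤ 4 := by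
  rcases T.eq_empty_or_nonempty with rfl | hT
  · simp
  set hi := T.max' hT with hhi
  set lo := T.min' hT with hlo
  set L := (hi - lo).toNat with hL
  have hb : ∀ a ∈ T, lo ≤ a ∧ a ≤ hi := fun a ha => ⟨T.min'_le a ha, T.le_max' a ha⟩
  have h1 : ∀ a ∈ T, wZ T a ≤ (1 / Real.sqrt (1 + ((hi - a).toNat : ℝ)) +
      1 / Real.sqrt (1 + ((a - lo).toNat : ℝ))) / Real.sqrt ((L : ℝ) + 2) := by
    intro a ha
    unfold wZ
    rw [upZ_eq T hT, dnZ_eq T hT]
    have := inv_sqrt_mul_le (1 + ((hi - a).toNat : ℝ)) (1 + ((a - lo).toNat : ℝ)) (by positivity)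
      (by positivity)
    have e : (1 + ((hi - a).toNat : ℝ)) + (1 + ((a - lo).toNat : ℝ)) = (L : ℝ) + 2 := by
      have h : (hi - a).toNat + (a - lo).toNat = L := by
        have := hb a ha
        omega
      rw [← h]; push_cast; ring
    rw [e] at this
    exact this
  refine le_trans (sum_le_sum h1) ?_
  rw [← sum_div, sum_add_distrib]
  have s1 := sum_inj_le T (fun a => (hi - a).toNat) (L + 1) (by
    intro a ha b hb' h
    have := hb a ha
    have := hb b hb'
    simp only at h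
    omega) (by
    intro a ha
    have := hb a ha
    omega)
  have s2 := sum_inj_le T (fun a => (a - lo).toNat) (L + 1) (by
    intro a ha b hb' h
    have := hb a ha
    have := hb b hb'
    simp only at h
    omega) (by
    intro a ha
    have := hb a ha
    omega)
  have hc : 0 < Real.sqrt ((L : ℝ) + 2) := Real.sqrt_pos.2 (by positivity)
  rw [div_le_iff₀ hc]
  have : Real.sqrt ((L + 1 : ℕ) : ℝ) ≤ Real.sqrt ((L : ℝ) + 2) := by
    apply Real.sqrt_le_sqrt; push_cast; linarith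
  linarith

variable {α : Type*}

open Classical in
/-- the points of `S` that agree with `z` in the coordinates before `k` -/
noncomputable def fib {m : ℕ} (S : Finset α) (c : Fin m → α → ℤ) (z : α) (k : Fin m) : Finset α :=
  S.filter (fun x => ∀ j, j < k → c j x = c j z)

/-- product of arcsine weights along the flag -/
noncomputable def qw {m : ℕ} (S : Finset α) (c : Fin m → α → ℤ) (z : α) : ℝ :=
  ∏ k, wZ ((fib S c z k).image (c k)) (c k z)

lemma qw_nonneg {m : ℕ} (S : Finset α) (c : Fin m → α → ℤ) (z : α) : 0 ≤ qw S c z :=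
  prod_nonneg fun _ _ => wZ_nonneg _ _

open Classical in
lemma sum_qw_le (m : ℕ) (ω : α → ℝ) (K : ℝ) (hK : 0 ≤ K) :
    ∀ (S : Finset α) (c : Fin m → α → ℤ),
      (∀ z ∈ S, ∑ x ∈ S.filter (fun x => ∀ j, c j x = c j z), ω x ≤ K) →
      ∑ z ∈ S, ω z * qw S c z ≤ 4 ^ m * K := by
  induction m with
  | zero =>
    intro S c h
    rcases S.eq_empty_or_nonempty with rfl | ⟨z, hz⟩
    · simpa using hK
    · have := h z hz
      simpa [qw] using this
  | succ m ih =>
    intro S c h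
    have hq : ∀ z ∈ S, qw S c z = wZ (S.image (c 0)) (c 0 z) *
        qw (S.filter (fun x => c 0 x = c 0 z)) (fun j => c j.succ) z := by
      intro z _
      unfold qw
      rw [Fin.prod_univ_succ]
      congr 1
      · congr 2
        ext x; simp [fib]
      · apply prod_congr rfl
        intro k _
        congr 2
        ext x
        simp only [fib, mem_filter]
        constructor
        · rintro ⟨h1, h2⟩
          exact ⟨⟨h1, h2 0 (Fin.succ_pos k)⟩, fun j hj => h2 j.succ (Fin.succ_lt_succ_iff.2 hj)⟩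
        · rintro ⟨⟨h1, h2⟩, h3⟩
          refine ⟨h1, fun j hj => ?_⟩
          rcases Fin.eq_zero_or_eq_succ j with rfl | ⟨j, rfl⟩
          · exact h2
          · exact h3 j (Fin.succ_lt_succ_iff.1 hj)
    rw [sum_congr rfl (fun z hz => by rw [hq z hz])]
    rw [← sum_fiberwise_of_maps_to (s := S) (t := S.image (c 0)) (g := c 0)
      (fun x hx => mem_image_of_mem _ hx)]
    have h2 : ∀ a ∈ S.image (c 0), ∑ z ∈ S with c 0 z = a, ω z * (wZ (S.image (c 0)) (c 0 z) *
        qw (S.filter (fun x => c 0 x = c 0 z)) (fun j => c j.succ) z) ≤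
        wZ (S.image (c 0)) a * (4 ^ m * K) := by
      intro a _
      have e : ∑ z ∈ S with c 0 z = a, ω z * (wZ (S.image (c 0)) (c 0 z) *
          qw (S.filter (fun x => c 0 x = c 0 z)) (fun j => c j.succ) z) =
          wZ (S.image (c 0)) a * ∑ z ∈ S with c 0 z = a, ω z *
          qw (S.filter (fun x => c 0 x = a)) (fun j => c j.succ) z := by
        rw [mul_sum]
        apply sum_congr rfl
        intro z hz
        rw [(mem_filter.1 hz).2]; ring
      rw [e]
      apply mul_le_mul_of_nonneg_left _ (wZ_nonneg _ _)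
      apply ih
      intro z hz
      have hz' := mem_filter.1 hz
      refine le_trans (le_of_eq ?_) (h z hz'.1)
      apply sum_congr _ (fun _ _ => rfl)
      ext x
      simp only [mem_filter]
      constructor
      · rintro ⟨⟨h1, h2⟩, h3⟩
        refine ⟨h1, fun j => ?_⟩
        rcases Fin.eq_zero_or_eq_succ j with rfl | ⟨j, rfl⟩
        · rw [h2, hz'.2]
        · exact h3 j
      · rintro ⟨h1, h2⟩
        exact ⟨⟨h1, by rw [h2 0, hz'.2]⟩, fun j => h2 j.succ⟩
    refine le_trans (sum_le_sum h2) ?_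
    rw [← sum_mul, pow_succ]
    have := sum_wZ_le (S.image (c 0))
    have h4 : 0 ≤ 4 ^ m * K := by positivity
    nlinarith

lemma exists_up (S : Finset α) (f : α → ℤ) (z : α) (hz : z ∈ S) :
    ∃ x ∈ S, f x - f z = upZ (S.image f) (f z) := by
  have hT : (S.image f).Nonempty := ⟨f z, mem_image_of_mem _ hz⟩
  rw [upZ_eq _ hT]
  obtain ⟨x, hx, e⟩ := mem_image.1 ((S.image f).max'_mem hT)
  have := (S.image f).le_max' (f z) (mem_image_of_mem _ hz)
  exact ⟨x, hx, by omega⟩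

lemma exists_dn (S : Finset α) (f : α → ℤ) (z : α) (hz : z ∈ S) :
    ∃ x ∈ S, f z - f x = dnZ (S.image f) (f z) := by
  have hT : (S.image f).Nonempty := ⟨f z, mem_image_of_mem _ hz⟩
  rw [dnZ_eq _ hT]
  obtain ⟨x, hx, e⟩ := mem_image.1 ((S.image f).min'_mem hT)
  have := (S.image f).min'_le (f z) (mem_image_of_mem _ hz)
  exact ⟨x, hx, by omega⟩

/-- pairing of a flag with the reversed flag -/
lemma qw_mul_qw {β : Type*} {m : ℕ} (S : Finset α) (T : Finset β) (c : Fin m → α → ℤ)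
    (e : Fin m → β → ℤ) (z : α) (w : β) (hz : z ∈ S) (hw : w ∈ T) (Λ : ℝ) (hΛ : 0 < Λ)
    (h : ∀ k, ∀ x ∈ S, ∀ y ∈ T, (∀ j, k < j → c j x = c j z) → (∀ j, j < k → e j y = e j w) →
      ∀ s : ℤ, (s = 1 ∨ s = -1) → 0 ≤ s * (c k x - c k z) → 0 ≤ s * (e k y - e k w) →
      (1 + ((s * (c k x - c k z) : ℤ) : ℝ)) * (1 + ((s * (e k y - e k w) : ℤ) : ℝ)) ≤ Λ) :
    (1 / Λ) ^ m ≤ qw S (fun k => c k.rev) z * qw T e w := by
  classical
  unfold qw
  rw [← Equiv.prod_comp Fin.revPerm, ← prod_mul_distrib]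
  have : (1 / Λ) ^ m = ∏ _k : Fin m, (1 / Λ) := by simp
  rw [this]
  apply prod_le_prod (fun _ _ => by positivity)
  intro k _
  simp only [Fin.revPerm_apply, Fin.rev_rev]
  have hz' : z ∈ fib S (fun k => c k.rev) z k.rev := by simp [fib, hz]
  have hw' : w ∈ fib T e w k := by simp [fib, hw]
  obtain ⟨x1, hx1, e1⟩ := exists_up _ (c k) z hz'
  obtain ⟨x2, hx2, e2⟩ := exists_dn _ (c k) z hz'
  obtain ⟨y1, hy1, f1⟩ := exists_up _ (e k) w hw'
  obtain ⟨y2, hy2, f2⟩ := exists_dn _ (e k) w hw'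
  have hx : ∀ x ∈ fib S (fun k => c k.rev) z k.rev, x ∈ S ∧ ∀ j, k < j → c j x = c j z := by
    intro x hx
    simp only [fib, mem_filter] at hx
    refine ⟨hx.1, fun j hj => ?_⟩
    have := hx.2 j.rev (Fin.rev_lt_rev.2 hj)
    simpa using this
  have hy : ∀ y ∈ fib T e w k, y ∈ T ∧ ∀ j, j < k → e j y = e j w := by
    intro y hy
    simpa only [fib, mem_filter] using hy
  have A := h k x1 (hx x1 hx1).1 y1 (hy y1 hy1).1 (hx x1 hx1).2 (hy y1 hy1).2 1 (Or.inl rfl)
    (by omega) (by omega)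
  have B := h k x2 (hx x2 hx2).1 y2 (hy y2 hy2).1 (hx x2 hx2).2 (hy y2 hy2).2 (-1) (Or.inr rfl)
    (by omega) (by omega)
  rw [show (1 : ℤ) * (c k x1 - c k z) = _ from by rw [one_mul, e1],
    show (1 : ℤ) * (e k y1 - e k w) = _ from by rw [one_mul, f1]] at A
  rw [show (-1 : ℤ) * (c k x2 - c k z) = _ from by rw [neg_mul, one_mul, neg_sub, e2],
    show (-1 : ℤ) * (e k y2 - e k w) = _ from by rw [neg_mul, one_mul, neg_sub, f2]] at B
  simp only [Int.cast_natCast] at A B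
  unfold wZ
  set a1 : ℝ := (upZ (image (c k) (fib S (fun k => c k.rev) z k.rev)) (c k z) : ℝ)
  set a2 : ℝ := (dnZ (image (c k) (fib S (fun k => c k.rev) z k.rev)) (c k z) : ℝ)
  set b1 : ℝ := (upZ (image (e k) (fib T e w k)) (e k w) : ℝ)
  set b2 : ℝ := (dnZ (image (e k) (fib T e w k)) (e k w) : ℝ)
  have ha1 : 0 ≤ a1 := Nat.cast_nonneg _
  have ha2 : 0 ≤ a2 := Nat.cast_nonneg _
  have hb1 : 0 ≤ b1 := Nat.cast_nonneg _
  have hb2 : 0 ≤ b2 := Nat.cast_nonneg _
  rw [div_mul_div_comm, one_mul, ← Real.sqrt_mul (by positivity)]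
  apply one_div_le_one_div_of_le (Real.sqrt_pos.2 (by positivity))
  rw [Real.sqrt_le_iff]
  refine ⟨hΛ.le, ?_⟩
  calc (1 + a1) * (1 + a2) * ((1 + b1) * (1 + b2))
      = ((1 + a1) * (1 + b1)) * ((1 + a2) * (1 + b2)) := by ring
    _ ≤ Λ * Λ := mul_le_mul A B (by positivity) hΛ.le
    _ = Λ ^ 2 := by ring

end Pool.Agent.H900Z
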