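import Mathlib

set_option autoImplicit false
open Finset MeasureTheory Matrix
open scoped ENNReal

namespace Pool.Agent.H900Z

lemma sum_lintegral_le {Ω ι : Type*} [MeasurableSpace Ω] (μ : Measure Ω) (s : Finset ι)
    (f : ι → Ω → ℝ≥0∞) : ∑ i ∈ s, ∫⁻ x, f i x ∂μ ≤ ∫⁻ x, ∑ i ∈ s, f i x ∂μ := by
  classical
  induction s using Finset.induction_on with
  | empty => simp
  | insert a s ha ih =>
    simp only [sum_insert ha]
    exact le_trans (add_le_add le_rfl ih) (le_lintegral_add _ _)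

lemma avg_bound {Ω ι : Type*} [MeasurableSpace Ω] (μ : Measure Ω) (s : Finset ι) (U G : Set Ω)
    (hU : MeasurableSet U) (hG : MeasurableSet G) (F H : ι → Ω → ℝ≥0∞) (ψ : ι → Ω → Ω)
    (c B₁ B₂ : ℝ≥0∞) (hF : ∀ i ∈ s, Measurable (F i)) (hψ : ∀ i ∈ s, Measurable (ψ i))
    (hmap : ∀ i ∈ s, μ.map (ψ i) ≤ c • μ) (hUG : ∀ i ∈ s, ∀ M ∈ U, ψ i M ∈ G)
    (hpt : ∀ i ∈ s, ∀ M ∈ U, 1 ≤ F i (ψ i M) + H i M)
    (h1 : ∀ A ∈ G, ∑ i ∈ s, F i A ≤ B₁) (h2 : ∀ M ∈ U, ∑ i ∈ s, H i M ≤ B₂) :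
    (s.card : ℝ≥0∞) * μ U ≤ c * (B₁ * μ G) + B₂ * μ U := by
  have step : ∀ i ∈ s, μ U ≤ c * ∫⁻ A in G, F i A ∂μ + ∫⁻ M in U, H i M ∂μ := by
    intro i hi
    calc μ U = ∫⁻ _ in U, 1 ∂μ := by simp
      _ ≤ ∫⁻ M in U, (F i (ψ i M) + H i M) ∂μ := setLIntegral_mono' hU (hpt i hi)
      _ = ∫⁻ M in U, F i (ψ i M) ∂μ + ∫⁻ M in U, H i M ∂μ :=
          lintegral_add_left ((hF i hi).comp (hψ i hi)) _
      _ ≤ _ := by
          refine add_le_add ?_ le_rfl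
          calc ∫⁻ M in U, F i (ψ i M) ∂μ ≤ ∫⁻ M in ψ i ⁻¹' G, F i (ψ i M) ∂μ :=
                lintegral_mono_set (hUG i hi)
            _ = ∫⁻ A in G, F i A ∂(μ.map (ψ i)) := (setLIntegral_map hG (hF i hi) (hψ i hi)).symm
            _ ≤ ∫⁻ A in G, F i A ∂(c • μ) :=
                lintegral_mono' (Measure.restrict_mono le_rfl (hmap i hi)) le_rfl
            _ = c * ∫⁻ A in G, F i A ∂μ := by
                rw [Measure.restrict_smul, lintegral_smul_measure, smul_eq_mul]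
  calc (s.card : ℝ≥0∞) * μ U = ∑ _i ∈ s, μ U := by simp
    _ ≤ ∑ i ∈ s, (c * ∫⁻ A in G, F i A ∂μ + ∫⁻ M in U, H i M ∂μ) := sum_le_sum step
    _ = c * ∑ i ∈ s, ∫⁻ A in G, F i A ∂μ + ∑ i ∈ s, ∫⁻ M in U, H i M ∂μ := by
        rw [sum_add_distrib, mul_sum]
    _ ≤ c * ∫⁻ A in G, ∑ i ∈ s, F i A ∂μ + ∫⁻ M in U, ∑ i ∈ s, H i M ∂μ :=
        add_le_add (mul_le_mul_right (sum_lintegral_le _ _ _) _) (sum_lintegral_le _ _ _)
    _ ≤ c * ∫⁻ _ in G, B₁ ∂μ + ∫⁻ _ in U, B₂ ∂μ :=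
        add_le_add (mul_le_mul_right (setLIntegral_mono' hG h1) _) (setLIntegral_mono' hU h2)
    _ = _ := by simp

variable {m : ℕ}

/-- the metric of the sphere in gnomonic coordinates, up to a factor -/
noncomputable def Ql (p : Fin m → ℝ) : (Fin m → ℝ) →ₗ[ℝ] (Fin m → ℝ) :=
  Matrix.toLin' (1 + replicateCol Unit ((-(1 / (1 + p ⬝ᵥ p))) • p) * replicateRow Unit p)

lemma dot_self_nonneg (p : Fin m → ℝ) : 0 ≤ p ⬝ᵥ p :=
  sum_nonneg fun i _ => mul_self_nonneg (p i)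

lemma Ql_apply (p v : Fin m → ℝ) (i : Fin m) :
    Ql p v i = v i - (p ⬝ᵥ v) / (1 + p ⬝ᵥ p) * p i := by
  unfold Ql
  rw [Matrix.toLin'_apply, Matrix.add_mulVec, Matrix.one_mulVec, ← Matrix.mulVec_mulVec]
  simp only [Pi.add_apply, Matrix.mulVec, dotProduct, replicateCol_apply, replicateRow_apply,
    Pi.smul_apply, smul_eq_mul, Finset.univ_unique, sum_singleton]
  ring

lemma Ql_eq (p v : Fin m → ℝ) : Ql p v = v - ((p ⬝ᵥ v) / (1 + p ⬝ᵥ p)) • p := by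
  ext i; rw [Ql_apply]; simp

lemma det_Ql (p : Fin m → ℝ) : LinearMap.det (Ql p) = 1 / (1 + p ⬝ᵥ p) := by
  unfold Ql
  rw [LinearMap.det_toLin', det_one_add_replicateCol_mul_replicateRow, dotProduct_smul]
  have := dot_self_nonneg p
  simp only [smul_eq_mul]
  field_simp
  ring

lemma Ql_symm (p v w : Fin m → ℝ) : Ql p v ⬝ᵥ w = v ⬝ᵥ Ql p w := by
  rw [Ql_eq, Ql_eq, sub_dotProduct, dotProduct_sub, smul_dotProduct, dotProduct_smul,
    dotProduct_comm v p]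
  simp only [smul_eq_mul]; ring

lemma abs_dot_le (v w : Fin m → ℝ) (a b : ℝ) (hv : ∀ i, |v i| ≤ a) (hw : ∀ i, |w i| ≤ b) :
    |v ⬝ᵥ w| ≤ m * (a * b) := by
  refine le_trans (abs_sum_le_sum_abs _ _) ?_
  have : ∀ i ∈ (univ : Finset (Fin m)), |v i * w i| ≤ a * b := fun i _ => by
    rw [abs_mul]; exact mul_le_mul (hv i) (hw i) (abs_nonneg _) ((abs_nonneg _).trans (hv i))
  simpa using sum_le_card_nsmul _ _ _ this

lemma norm_le_Ql (p w : Fin m → ℝ) (hp : ∀ i, |p i| ≤ 1) : ‖w‖ ≤ (m + 1) * ‖Ql p w‖ := by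
  have h0 := dot_self_nonneg p
  have e : p ⬝ᵥ Ql p w = (p ⬝ᵥ w) / (1 + p ⬝ᵥ p) := by
    rw [Ql_eq, dotProduct_sub, dotProduct_smul, smul_eq_mul]; field_simp; ring
  rw [pi_norm_le_iff_of_nonneg (by positivity)]
  intro i
  have h1 : w i = Ql p w i + (p ⬝ᵥ Ql p w) * p i := by rw [e, Ql_apply]; ring
  have h2 := abs_dot_le p (Ql p w) 1 ‖Ql p w‖ hp (fun i => norm_le_pi_norm (Ql p w) i)
  have h3 : |Ql p w i| ≤ ‖Ql p w‖ := norm_le_pi_norm (Ql p w) i
  have h4 : |(p ⬝ᵥ Ql p w) * p i| ≤ m * ‖Ql p w‖ := by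
    rw [abs_mul]
    calc _ ≤ (m * (1 * ‖Ql p w‖)) * 1 := mul_le_mul h2 (hp i) (abs_nonneg _) (by positivity)
      _ = _ := by ring
  rw [Real.norm_eq_abs, h1]
  refine le_trans (abs_add_le _ _) ?_
  linarith

/-- apply `Ql p` to every vector of a frame -/
noncomputable def psi (p : Fin m → ℝ) : (Fin m → Fin m → ℝ) →ₗ[ℝ] (Fin m → Fin m → ℝ) :=
  LinearMap.pi (fun i => (Ql p).comp (LinearMap.proj i))

lemma psi_apply (p : Fin m → ℝ) (M : Fin m → Fin m → ℝ) (j : Fin m) : psi p M j = Ql p (M j) := rfl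

lemma map_psi (p : Fin m → ℝ) (hp : ∀ i, |p i| ≤ 1) :
    Measure.map (psi p) volume ≤ ENNReal.ofReal ((m + 1) ^ m) • (volume : Measure (Fin m → Fin m → ℝ)) := by
  have h0 := dot_self_nonneg p
  have hd : LinearMap.det (psi p) = (1 / (1 + p ⬝ᵥ p)) ^ m := by
    unfold psi
    rw [LinearMap.det_pi]; simp [det_Ql]
  rw [Measure.map_linearMap_addHaar_eq_smul_addHaar _ (by rw [hd]; positivity), hd]
  have h1 : p ⬝ᵥ p ≤ m := by
    have := abs_dot_le p p 1 1 hp hp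
    have := le_abs_self (p ⬝ᵥ p)
    linarith
  have h2 : |((1 / (1 + p ⬝ᵥ p)) ^ m)⁻¹| ≤ (m + 1) ^ m := by
    rw [abs_of_nonneg (by positivity), ← inv_pow, one_div, inv_inv]
    exact pow_le_pow_left₀ (by positivity) (by linarith) _
  intro s
  simp only [Measure.smul_apply, smul_eq_mul]
  exact mul_le_mul_left (ENNReal.ofReal_le_ofReal h2) _

/-- frames close to the standard one -/
def Uset (m : ℕ) : Set (Fin m → Fin m → ℝ) :=
  Metric.closedBall (fun j => Pi.single j 1) (1 / (2 * (m + 1)))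

/-- bounded coframes with bounded inverse -/
def Gset (m : ℕ) : Set (Fin m → Fin m → ℝ) :=
  Metric.closedBall 0 (2 * (m + 1)) ∩ {A | ∀ w : Fin m → ℝ, ‖w‖ ≤ 2 * (m + 1) * ‖fun j => A j ⬝ᵥ w‖}

lemma meas_U : MeasurableSet (Uset m) := Metric.isClosed_closedBall.measurableSet

lemma meas_G : MeasurableSet (Gset m) := by
  apply IsClosed.measurableSet
  apply Metric.isClosed_closedBall.inter
  rw [Set.ofPred_forall]
  apply isClosed_iInter
  intro w
  apply isClosed_le continuous_const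
  unfold dotProduct
  fun_prop

lemma vol_U_pos : 0 < volume (Uset m) :=
  Metric.measure_closedBall_pos _ _ (by positivity)

lemma vol_U_lt : volume (Uset m) < ∞ := measure_closedBall_lt_top

lemma vol_G_lt : volume (Gset m) < ∞ :=
  lt_of_le_of_lt (measure_mono Set.inter_subset_left) measure_closedBall_lt_top

lemma U_entry {M : Fin m → Fin m → ℝ} (hM : M ∈ Uset m) (j i : Fin m) :
    |M j i - (Pi.single j (1 : ℝ) : Fin m → ℝ) i| ≤ 1 / (2 * (m + 1)) := by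
  unfold Uset at hM
  rw [mem_closedBall_iff_norm] at hM
  set N : Fin m → Fin m → ℝ := M - fun j => Pi.single j 1 with hN
  exact le_trans (norm_le_pi_norm (N j) i) (le_trans (norm_le_pi_norm N j) hM)

lemma half_aux (x : ℝ) (hx : 0 ≤ x) : (m : ℝ) * (1 / (2 * (m + 1)) * x) ≤ x / 2 := by
  have : (m : ℝ) * (1 / (2 * (m + 1))) ≤ 1 / 2 := by
    rw [mul_one_div, div_le_div_iff₀ (by positivity) (by positivity)]; linarith
  nlinarith

lemma U_row {M : Fin m → Fin m → ℝ} (hM : M ∈ Uset m) (w : Fin m → ℝ) :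
    ‖w‖ ≤ 2 * ‖fun j => M j ⬝ᵥ w‖ := by
  have : ‖w‖ ≤ ‖fun j => M j ⬝ᵥ w‖ + ‖w‖ / 2 := by
    rw [pi_norm_le_iff_of_nonneg (by positivity)]
    intro j
    have h1 := abs_dot_le (M j - Pi.single j 1) w _ ‖w‖ (U_entry hM j) (fun i => norm_le_pi_norm w i)
    rw [sub_dotProduct, single_dotProduct, one_mul] at h1
    have h2 : |M j ⬝ᵥ w| ≤ ‖fun j => M j ⬝ᵥ w‖ := norm_le_pi_norm (fun j => M j ⬝ᵥ w) j
    have h3 := half_aux (m := m) ‖w‖ (norm_nonneg _)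
    rw [Real.norm_eq_abs, abs_le] at *
    constructor <;> linarith [h1.1, h1.2, h2.1, h2.2]
  linarith

/-- the vector with coordinates `β` in the frame `M` -/
def Tm (M : Fin m → Fin m → ℝ) : (Fin m → ℝ) →ₗ[ℝ] (Fin m → ℝ) where
  toFun β := fun i => ∑ j, β j * M j i
  map_add' a b := by ext i; simp [add_mul, sum_add_distrib]
  map_smul' c a := by ext i; simp [mul_sum, mul_assoc]

lemma Tm_sub_le {M : Fin m → Fin m → ℝ} (hM : M ∈ Uset m) (β : Fin m → ℝ) :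
    ‖Tm M β - β‖ ≤ ‖β‖ / 2 := by
  rw [pi_norm_le_iff_of_nonneg (by positivity)]
  intro i
  have h1 := abs_dot_le (fun j => M j i - (Pi.single j (1 : ℝ) : Fin m → ℝ) i) β _ ‖β‖
    (fun j => U_entry hM j i) (fun i => norm_le_pi_norm β i)
  have e : (fun j => M j i - (Pi.single j (1 : ℝ) : Fin m → ℝ) i) ⬝ᵥ β = (Tm M β - β) i := by
    simp only [dotProduct, sub_mul, sum_sub_distrib, Pi.sub_apply, Tm, LinearMap.coe_mk,
      AddHom.coe_mk, Pi.single_apply, ite_mul, one_mul, zero_mul, sum_ite_eq, mem_univ, if_true]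
    congr 1
    exact sum_congr rfl fun _ _ => mul_comm _ _
  rw [e] at h1
  exact h1.trans (half_aux _ (norm_nonneg _))

lemma norm_le_Tm {M : Fin m → Fin m → ℝ} (hM : M ∈ Uset m) (β : Fin m → ℝ) :
    ‖β‖ ≤ 2 * ‖Tm M β‖ := by
  have h := Tm_sub_le hM β
  have := norm_sub_norm_le β (Tm M β)
  rw [norm_sub_rev] at this
  linarith

lemma Tm_le {M : Fin m → Fin m → ℝ} (hM : M ∈ Uset m) (β : Fin m → ℝ) :
    ‖Tm M β‖ ≤ 2 * ‖β‖ := by
  have h := Tm_sub_le hM β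
  have := norm_sub_norm_le (Tm M β) β
  have := norm_nonneg β
  linarith

lemma Tm_surj {M : Fin m → Fin m → ℝ} (hM : M ∈ Uset m) : Function.Surjective (Tm M) := by
  rw [← LinearMap.injective_iff_surjective, ← LinearMap.ker_eq_bot, LinearMap.ker_eq_bot']
  intro β h
  have := norm_le_Tm hM β
  rw [h, norm_zero, mul_zero] at this
  exact norm_le_zero_iff.1 this

lemma dot_Tm (M : Fin m → Fin m → ℝ) (β w : Fin m → ℝ) :
    Tm M β ⬝ᵥ w = ∑ j, (M j ⬝ᵥ w) * β j := by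
  simp only [dotProduct, Tm, LinearMap.coe_mk, AddHom.coe_mk, sum_mul]
  rw [sum_comm]
  exact sum_congr rfl fun _ _ => sum_congr rfl fun _ _ => by ring

lemma psi_mem {M : Fin m → Fin m → ℝ} (hM : M ∈ Uset m) (p : Fin m → ℝ) (hp : ∀ i, |p i| ≤ 1) :
    psi p M ∈ Gset m := by
  have h0 := dot_self_nonneg p
  constructor
  · rw [mem_closedBall_zero_iff, pi_norm_le_iff_of_nonneg (by positivity)]
    intro j
    rw [pi_norm_le_iff_of_nonneg (by positivity)]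
    intro i
    have hb : ∀ i, |M j i| ≤ 2 := by
      intro i
      have h1 := U_entry hM j i
      have h2 : 1 / (2 * ((m : ℝ) + 1)) ≤ 1 := by
        rw [div_le_one (by positivity)]
        have : (0 : ℝ) ≤ m := Nat.cast_nonneg _
        linarith
      have h3 : |(Pi.single j (1 : ℝ) : Fin m → ℝ) i| ≤ 1 := by
        rw [Pi.single_apply]; split_ifs <;> simp
      rw [abs_le] at *
      constructor <;> linarith [h1.1, h1.2, h3.1, h3.2]
    have h1 := abs_dot_le p (M j) 1 2 hp hb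
    rw [psi_apply, Ql_apply, Real.norm_eq_abs]
    have h2 : |p ⬝ᵥ M j / (1 + p ⬝ᵥ p) * p i| ≤ m * (1 * 2) := by
      rw [abs_mul, abs_div, abs_of_pos (show 0 < 1 + p ⬝ᵥ p by positivity)]
      calc _ ≤ |p ⬝ᵥ M j| * 1 := mul_le_mul (div_le_self (abs_nonneg _) (by linarith)) (hp i)
            (abs_nonneg _) (abs_nonneg _)
        _ ≤ _ := by linarith
    have h3 := hb i
    rw [abs_le] at *
    constructor <;> linarith [h2.1, h2.2, h3.1, h3.2]
  · intro w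
    have e : (fun j => psi p M j ⬝ᵥ w) = fun j => M j ⬝ᵥ Ql p w := by
      ext j; rw [psi_apply, Ql_symm]
    rw [e]
    have h1 := U_row hM (Ql p w)
    have h2 := norm_le_Ql p w hp
    have : (0 : ℝ) ≤ m + 1 := by positivity
    nlinarith

end Pool.Agent.H900Z
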