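import Pool.Agent.H900Z.Arc
import Pool.Agent.H900Z.Avg

set_option autoImplicit false
open Finset MeasureTheory Matrix
open scoped ENNReal

namespace Pool.Agent.H900Z

variable {m : ℕ}

lemma scalar_geo (n n' n'' g' g'' h ε κ : ℝ) (hε : 0 < ε) (hκ : 0 < κ) (hκ1 : κ ≤ 1)
    (hn : κ ^ 2 ≤ n) (h1 : (1 - ε) ^ 2 ≤ n) (h1' : (1 - ε) ^ 2 ≤ n') (h1'' : (1 - ε) ^ 2 ≤ n'')
    (h2 : n ≤ 1) (h2' : n' ≤ 1) (h2'' : n'' ≤ 1) (c1 : 2 * g' ≤ n + n') (c2 : -(2 * g') ≤ n + n')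
    (c3 : 2 * g'' ≤ n + n'') (c4 : -(2 * g'') ≤ n + n'')
    (hd : n' + n'' + n + 2 * h - 2 * g' - 2 * g'' ≤ 1) :
    h - g' * g'' / n ≤ 4 * ε / κ ^ 2 := by
  have hκ2 : 0 < κ ^ 2 := by positivity
  have hn0 : 0 < n := lt_of_lt_of_le hκ2 hn
  have hκ3 : κ ^ 2 ≤ 1 := pow_le_one₀ hκ.le hκ1
  have e : h - g' * g'' / n = (h - g' - g'' + n) - (n - g') * (n - g'') / n := by
    field_simp; ring
  have hsq : 1 - 2 * ε ≤ (1 - ε) ^ 2 := by nlinarith [sq_nonneg ε]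
  have a1 : h - g' - g'' + n ≤ 2 * ε := by linarith
  have s1 : -ε ≤ n - g' := by linarith
  have s2 : n - g' ≤ 2 := by linarith
  have s3 : -ε ≤ n - g'' := by linarith
  have s4 : n - g'' ≤ 2 := by linarith
  have a2 : -(2 * ε) ≤ (n - g') * (n - g'') := by
    rcases le_total 0 (n - g') with p | p <;> rcases le_total 0 (n - g'') with q | q <;> nlinarith
  have a3 : -((n - g') * (n - g'') / n) ≤ 2 * ε / κ ^ 2 := by
    calc -((n - g') * (n - g'') / n) = (-((n - g') * (n - g''))) / n := by ring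
      _ ≤ 2 * ε / n := by gcongr; linarith
      _ ≤ 2 * ε / κ ^ 2 := by gcongr
  have a4 : 2 * ε ≤ 2 * ε / κ ^ 2 := le_div_self (by positivity) hκ2 hκ3
  rw [e]
  have : 4 * ε / κ ^ 2 = 2 * ε / κ ^ 2 + 2 * ε / κ ^ 2 := by ring
  linarith

/-- The three-chain inequality in gnomonic coordinates. -/
lemma three_chain (a a' a'' ε κ : ℝ) (p p' p'' : Fin m → ℝ) (hε : 0 < ε) (hκ : 0 < κ) (hκ1 : κ ≤ 1)
    (ha : κ ≤ a) (ha' : κ ≤ a') (ha'' : κ ≤ a'')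
    (h1 : (1 - ε) ^ 2 ≤ a ^ 2 + (a • p) ⬝ᵥ (a • p))
    (h1' : (1 - ε) ^ 2 ≤ a' ^ 2 + (a' • p') ⬝ᵥ (a' • p'))
    (h1'' : (1 - ε) ^ 2 ≤ a'' ^ 2 + (a'' • p'') ⬝ᵥ (a'' • p''))
    (h2 : a ^ 2 + (a • p) ⬝ᵥ (a • p) ≤ 1) (h2' : a' ^ 2 + (a' • p') ⬝ᵥ (a' • p') ≤ 1)
    (h2'' : a'' ^ 2 + (a'' • p'') ⬝ᵥ (a'' • p'') ≤ 1)
    (hd : (a' + a'' - a) ^ 2 + (a' • p' + a'' • p'' - a • p) ⬝ᵥ (a' • p' + a'' • p'' - a • p) ≤ 1) :
    (p'' - p) ⬝ᵥ Ql p (p' - p) ≤ 4 * ε / κ ^ 4 := by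
  have hP := dot_self_nonneg p
  have ha0 : 0 < a := lt_of_lt_of_le hκ ha
  have c1 := dot_self_nonneg (a • p - a' • p')
  have c2 := dot_self_nonneg (a • p + a' • p')
  have c3 := dot_self_nonneg (a • p - a'' • p'')
  have c4 := dot_self_nonneg (a • p + a'' • p'')
  rw [Ql_eq]
  simp only [sub_dotProduct, dotProduct_sub, add_dotProduct, dotProduct_add, smul_dotProduct,
    dotProduct_smul, smul_eq_mul, dotProduct_comm p' p, dotProduct_comm p'' p,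
    dotProduct_comm p'' p'] at *
  set P := p ⬝ᵥ p
  set P' := p' ⬝ᵥ p'
  set P'' := p'' ⬝ᵥ p''
  set A := p ⬝ᵥ p'
  set B := p ⬝ᵥ p''
  set C := p' ⬝ᵥ p''
  have key := scalar_geo (a ^ 2 + a * (a * P)) (a' ^ 2 + a' * (a' * P')) (a'' ^ 2 + a'' * (a'' * P''))
    (a * a' * (1 + A)) (a * a'' * (1 + B)) (a' * a'' * (1 + C)) ε κ hε hκ hκ1
    (by nlinarith [mul_nonneg (mul_self_nonneg a) hP]) h1 h1' h1'' h2 h2' h2''
    (by nlinarith [sq_nonneg (a - a')]) (by nlinarith [sq_nonneg (a + a')])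
    (by nlinarith [sq_nonneg (a - a'')]) (by nlinarith [sq_nonneg (a + a'')]) (by nlinarith)
  have e : a' * a'' * (1 + C) - a * a' * (1 + A) * (a * a'' * (1 + B)) / (a ^ 2 + a * (a * P)) =
      a' * a'' * (C - B - (A - P) / (1 + P) * B - (A - P - (A - P) / (1 + P) * P)) := by
    field_simp; ring
  rw [e] at key
  set Z := C - B - (A - P) / (1 + P) * B - (A - P - (A - P) / (1 + P) * P) with hZ
  have goal : Z ≤ 4 * ε / κ ^ 4 := by
    rcases le_total Z 0 with hz | hz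
    · exact hz.trans (by positivity)
    · have hk : κ ^ 2 ≤ a' * a'' := by nlinarith
      have : κ ^ 2 * Z ≤ 4 * ε / κ ^ 2 := le_trans (mul_le_mul_of_nonneg_right hk hz) key
      rw [le_div_iff₀ (by positivity)] at this ⊢
      nlinarith
  linarith

/-- close directions in the shell give close points -/
lemma close_pts (a a' ε κ δ : ℝ) (p p' : Fin m → ℝ) (hκ : 0 < κ)
    (ha : κ ≤ a) (ha' : κ ≤ a') (hp : ∀ i, |p i| ≤ 1) (hp' : ∀ i, |p' i| ≤ 1)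
    (h1 : (1 - ε) ^ 2 ≤ a ^ 2 + (a • p) ⬝ᵥ (a • p))
    (h1' : (1 - ε) ^ 2 ≤ a' ^ 2 + (a' • p') ⬝ᵥ (a' • p'))
    (h2 : a ^ 2 + (a • p) ⬝ᵥ (a • p) ≤ 1) (h2' : a' ^ 2 + (a' • p') ⬝ᵥ (a' • p') ≤ 1)
    (hδ : ‖p - p'‖ ≤ δ) :
    |a - a'| ≤ (ε + m * δ) / κ + δ ∧ ∀ j, |a * p j - a' * p' j| ≤ (ε + m * δ) / κ + δ := by
  have hP := dot_self_nonneg p
  have hP' := dot_self_nonneg p'
  have hδ0 : 0 ≤ δ := (norm_nonneg _).trans hδ
  have hd : ∀ j, |(p - p') j| ≤ δ := fun j => (norm_le_pi_norm (p - p') j).trans hδ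
  have h3 := abs_dot_le (p - p') (p + p') δ 2 hd (fun i => by
    have := hp i; have := hp' i
    rw [Pi.add_apply]
    exact (abs_add_le _ _).trans (by linarith))
  simp only [sub_dotProduct, dotProduct_add, smul_dotProduct,
    dotProduct_smul, smul_eq_mul, dotProduct_comm p' p] at h1 h1' h2 h2' h3
  set P := p ⬝ᵥ p
  set P' := p' ⬝ᵥ p'
  have h4 : |P - P'| ≤ m * (δ * 2) := by
    convert h3 using 2; ring
  have hsq : 1 - 2 * ε ≤ (1 - ε) ^ 2 := by nlinarith [sq_nonneg ε]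
  have ha2 : a' ^ 2 ≤ 1 := by nlinarith [mul_nonneg (mul_self_nonneg a') hP']
  have ha1 : a' ≤ 1 := by nlinarith
  have h5 : |(a ^ 2 - a' ^ 2) * (1 + P)| ≤ 2 * ε + m * (δ * 2) := by
    have e : (a ^ 2 - a' ^ 2) * (1 + P) =
        ((a ^ 2 + a * (a * P)) - (a' ^ 2 + a' * (a' * P'))) - a' ^ 2 * (P - P') := by ring
    rw [e]
    have h6 : |a' ^ 2 * (P - P')| ≤ m * (δ * 2) := by
      rw [abs_mul, abs_of_nonneg (sq_nonneg a')]
      calc _ ≤ 1 * (m * (δ * 2)) := mul_le_mul ha2 h4 (abs_nonneg _) zero_le_one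
        _ = _ := one_mul _
    rw [abs_le] at h6 ⊢
    constructor <;> linarith [h6.1, h6.2]
  have h7 : |a - a'| * (2 * κ) ≤ 2 * ε + m * (δ * 2) := by
    refine le_trans ?_ h5
    have e : (a ^ 2 - a' ^ 2) * (1 + P) = (a - a') * ((a + a') * (1 + P)) := by ring
    rw [e, abs_mul]
    apply mul_le_mul_of_nonneg_left _ (abs_nonneg _)
    refine le_trans ?_ (le_abs_self _)
    nlinarith
  have h8 : |a - a'| ≤ (ε + m * δ) / κ := by
    rw [le_div_iff₀ hκ]; linarith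
  refine ⟨by linarith, fun j => ?_⟩
  have e : a * p j - a' * p' j = (a - a') * p j + a' * (p - p') j := by
    rw [Pi.sub_apply]; ring
  rw [e]
  refine (abs_add_le _ _).trans (add_le_add ?_ ?_)
  · rw [abs_mul]
    calc _ ≤ ((ε + m * δ) / κ) * 1 := mul_le_mul h8 (hp j) (abs_nonneg _) ((abs_nonneg _).trans h8)
      _ = _ := mul_one _
  · rw [abs_mul, abs_of_pos (lt_of_lt_of_le hκ ha')]
    calc _ ≤ 1 * δ := mul_le_mul ha1 (hd j) (abs_nonneg _) zero_le_one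
      _ = _ := one_mul _

lemma floor_eq_close (a b ε : ℝ) (hε : 0 < ε) (h : ⌊a / ε⌋ = ⌊b / ε⌋) : |a - b| ≤ ε := by
  have h1 := Int.abs_sub_lt_one_of_floor_eq_floor h
  rw [← sub_div, abs_div, abs_of_pos hε, div_lt_one hε] at h1
  exact h1.le

lemma floor_step (a b ε : ℝ) (s : ℤ) (hs : s = 1 ∨ s = -1) :
    ((s * (⌊a / ε⌋ - ⌊b / ε⌋) : ℤ) : ℝ) ≤ s * (a - b) / ε + 1 := by
  have h1 := Int.floor_le (a / ε)
  have h2 := Int.lt_floor_add_one (a / ε)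
  have h3 := Int.floor_le (b / ε)
  have h4 := Int.lt_floor_add_one (b / ε)
  rcases hs with rfl | rfl
  · push_cast; rw [one_mul, one_mul, sub_div]; linarith
  · push_cast; rw [neg_mul, neg_mul, one_mul, one_mul, neg_div, sub_div]; linarith

lemma pair_bound (a a' b b' : Fin m → ℝ) (ε R B : ℝ) (k : Fin m) (hε : 0 < ε) (hε1 : ε ≤ 1)
    (ha : ∀ j, |a' j - a j| ≤ R) (hb : ∀ j, |b' j - b j| ≤ R)
    (h1 : ∀ j, k < j → ⌊a' j / ε⌋ = ⌊a j / ε⌋) (h2 : ∀ j, j < k → ⌊b' j / ε⌋ = ⌊b j / ε⌋)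
    (h : ∑ j, (a' j - a j) * (b' j - b j) ≤ B * ε) (s : ℤ) (hs : s = 1 ∨ s = -1)
    (hx : 0 ≤ s * (⌊a' k / ε⌋ - ⌊a k / ε⌋)) (hy : 0 ≤ s * (⌊b' k / ε⌋ - ⌊b k / ε⌋)) :
    (1 + ((s * (⌊a' k / ε⌋ - ⌊a k / ε⌋) : ℤ) : ℝ)) * (1 + ((s * (⌊b' k / ε⌋ - ⌊b k / ε⌋) : ℤ) : ℝ))
      ≤ (4 + 4 * R + B + m * R) / ε := by
  have hR : 0 ≤ R := (abs_nonneg _).trans (ha k)
  have h3 : ∀ j ∈ (univ : Finset (Fin m)).erase k, -(R * ε) ≤ (a' j - a j) * (b' j - b j) := by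
    intro j hj
    have hj' := (mem_erase.1 hj).1
    refine neg_le_of_abs_le ?_
    rw [abs_mul]
    rcases lt_or_gt_of_ne hj' with hlt | hgt
    · exact mul_le_mul (ha j) (floor_eq_close _ _ _ hε (h2 j hlt)) (abs_nonneg _) hR
    · rw [mul_comm R]
      exact mul_le_mul (floor_eq_close _ _ _ hε (h1 j hgt)) (hb j) (abs_nonneg _) hε.le
  have h4 := card_nsmul_le_sum _ _ _ h3
  rw [← add_sum_erase _ _ (mem_univ k)] at h
  have h5 : (((univ : Finset (Fin m)).erase k).card : ℝ) ≤ m := by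
    have := card_erase_le (s := (univ : Finset (Fin m))) (a := k)
    rw [card_univ, Fintype.card_fin] at this
    exact_mod_cast this
  rw [nsmul_eq_mul] at h4
  have h6 : (a' k - a k) * (b' k - b k) ≤ (B + m * R) * ε := by
    have : (((univ : Finset (Fin m)).erase k).card : ℝ) * (R * ε) ≤ m * (R * ε) :=
      mul_le_mul_of_nonneg_right h5 (by positivity)
    linarith
  have f1 := floor_step (a' k) (a k) ε s hs
  have f2 := floor_step (b' k) (b k) ε s hs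
  have hx' : (0 : ℝ) ≤ ((s * (⌊a' k / ε⌋ - ⌊a k / ε⌋) : ℤ) : ℝ) := by exact_mod_cast hx
  have hy' : (0 : ℝ) ≤ ((s * (⌊b' k / ε⌋ - ⌊b k / ε⌋) : ℤ) : ℝ) := by exact_mod_cast hy
  have hs2 : (s : ℝ) * s = 1 := by rcases hs with rfl | rfl <;> simp
  have hsa : (s : ℝ) * (a' k - a k) ≤ R := by
    have := abs_le.1 (ha k)
    rcases hs with rfl | rfl <;> simp <;> linarith [this.1, this.2]
  have hsb : (s : ℝ) * (b' k - b k) ≤ R := by
    have := abs_le.1 (hb k)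
    rcases hs with rfl | rfl <;> simp <;> linarith [this.1, this.2]
  calc _ ≤ (2 + s * (a' k - a k) / ε) * (2 + s * (b' k - b k) / ε) :=
        mul_le_mul (by linarith) (by linarith) (by linarith) (by linarith)
    _ = (4 * ε + 2 * (s * (a' k - a k)) + 2 * (s * (b' k - b k)) +
          (s * s) * ((a' k - a k) * (b' k - b k)) / ε) / ε := by field_simp; ring
    _ ≤ _ := by
        rw [hs2, one_mul]
        apply div_le_div_of_nonneg_right _ hε.le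
        have : (a' k - a k) * (b' k - b k) / ε ≤ B + m * R := by rwa [div_le_iff₀ hε]
        linarith

end Pool.Agent.H900Z
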