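import Pool.Agent.H900Z.Geo

set_option autoImplicit false
open Finset MeasureTheory Matrix
open scoped ENNReal

namespace Pool.Agent.H900Z

variable {m : ℕ}

/-- gnomonic coordinates of the direction from `x` to `y` -/
noncomputable def gp {α : Type*} (t : α → ℝ) (u : α → Fin m → ℝ) (x y : α) : Fin m → ℝ :=
  (t y - t x)⁻¹ • (u y - u x)

lemma smul_gp {α : Type*} (t : α → ℝ) (u : α → Fin m → ℝ) (x y : α) (h : 0 < t y - t x) :
    (t y - t x) • gp t u x y = u y - u x := by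
  unfold gp; rw [smul_smul, mul_inv_cancel₀ h.ne', one_smul]

lemma gp_le {α : Type*} (t : α → ℝ) (u : α → Fin m → ℝ) (x y : α) (h : 0 < t y - t x)
    (h2 : ∀ j, |u y j - u x j| ≤ t y - t x) (j : Fin m) : |gp t u x y j| ≤ 1 := by
  unfold gp
  rw [Pi.smul_apply, smul_eq_mul, abs_mul, abs_of_pos (inv_pos.2 h), inv_mul_le_iff₀ h, mul_one]
  exact h2 j

lemma one_le_add_of_mul (a b : ℝ) (ha : 0 ≤ a) (hb : 0 ≤ b) (h : 1 ≤ a * b) : 1 ≤ a + b := by
  nlinarith [sq_nonneg (a - b)]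

open Classical in
theorem abstract_bound (m : ℕ) (κ : ℝ) (hκ : 0 < κ) (hκ1 : κ ≤ 1) :
    ∃ R C : ℝ, 0 < R ∧ 0 < C ∧ ∀ (α : Type) [Fintype α] (t : α → ℝ) (u : α → Fin m → ℝ)
      (E : Finset (α × α)) (ε : ℝ) (ω : α → ℝ) (K : ℝ), 0 < ε → ε ≤ 1 → 0 ≤ K → (∀ x, 0 < ω x) →
      (∀ x y, (t y - t x) ^ 2 + (u y - u x) ⬝ᵥ (u y - u x) ≤ 1) →
      (∀ e ∈ E, (1 - ε) ^ 2 ≤ (t e.2 - t e.1) ^ 2 + (u e.2 - u e.1) ⬝ᵥ (u e.2 - u e.1) ∧
        κ ≤ t e.2 - t e.1 ∧ ∀ j, |u e.2 j - u e.1 j| ≤ t e.2 - t e.1) →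
      (∀ x₀, ∑ x ∈ univ.filter (fun x => |t x - t x₀| ≤ R * ε ∧ ∀ j, |u x j - u x₀ j| ≤ R * ε),
        (ω x)⁻¹ ≤ K) →
      (E.card : ℝ) ≤ C * K * (1 / Real.sqrt ε) ^ m * ∑ x, ω x := by
  set R₁ : ℝ := 4 * (m + 1) ^ 2 with hR₁
  set Λ₀ : ℝ := 4 + 4 * R₁ + 4 / κ ^ 4 + m * R₁ with hΛ₀
  have hΛ₀pos : 0 < Λ₀ := by positivity
  have hU0 : 0 < (volume (Uset m)).toReal := ENNReal.toReal_pos vol_U_pos.ne' vol_U_lt.ne
  refine ⟨(1 + m * (2 * (m + 1))) / κ + 2 * (m + 1),
    ((m + 1) ^ m * (volume (Gset m)).toReal / (volume (Uset m)).toReal + 1) *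
      (Real.sqrt Λ₀ ^ m * 4 ^ m), by positivity, by positivity, ?_⟩
  intro α _ t u E ε ω K hε hε1 hK hω H1 H2 H3
  set R : ℝ := (1 + m * (2 * (m + 1))) / κ + 2 * (m + 1) with hR
  set lam : ℝ := Real.sqrt Λ₀ ^ m * (1 / Real.sqrt ε) ^ m with hlam
  have hlam0 : 0 ≤ lam := by positivity
  let p := gp t u
  let cX : (Fin m → Fin m → ℝ) → α → Fin m → α → ℤ := fun A y k x => ⌊(A k ⬝ᵥ p x y) / ε⌋
  let β : (Fin m → Fin m → ℝ) → (Fin m → ℝ) → Fin m → ℝ := fun M v => Function.invFun (Tm M) v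
  let cY : (Fin m → Fin m → ℝ) → α → Fin m → α → ℤ := fun M x k y => ⌊β M (p x y) k / ε⌋
  let CC : α → Finset α := fun y => univ.filter (fun x => (x, y) ∈ E)
  let DD : α → Finset α := fun x => univ.filter (fun y => (x, y) ∈ E)
  have hpos : ∀ x y, (x, y) ∈ E → 0 < t y - t x := fun x y h => lt_of_lt_of_le hκ (H2 _ h).2.1
  have hp1 : ∀ x y, (x, y) ∈ E → ∀ j, |p x y j| ≤ 1 := fun x y h =>
    gp_le t u x y (hpos x y h) (H2 _ h).2.2
  have hsm : ∀ x y, (x, y) ∈ E → (t y - t x) • p x y = u y - u x := fun x y h =>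
    smul_gp t u x y (hpos x y h)
  have hβ : ∀ M ∈ Uset m, ∀ v, Tm M (β M v) = v := fun M hM v =>
    Function.invFun_eq (Tm_surj hM v)
  have hRε : R * ε = (ε + m * (2 * (m + 1) * ε)) / κ + 2 * (m + 1) * ε := by
    rw [hR]; field_simp
  -- closeness
  have hclose : ∀ x y x' y', (x, y) ∈ E → (x', y') ∈ E → ‖p x y - p x' y'‖ ≤ 2 * (m + 1) * ε →
      |(t y - t x) - (t y' - t x')| ≤ R * ε ∧
        ∀ j, |(u y j - u x j) - (u y' j - u x' j)| ≤ R * ε := by
    intro x y x' y' h h' hd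
    have := close_pts (t y - t x) (t y' - t x') ε κ (2 * (m + 1) * ε) (p x y) (p x' y') hκ
      (H2 _ h).2.1 (H2 _ h').2.1 (hp1 _ _ h) (hp1 _ _ h')
      (by rw [hsm _ _ h]; exact (H2 _ h).1) (by rw [hsm _ _ h']; exact (H2 _ h').1)
      (by rw [hsm _ _ h]; exact H1 _ _) (by rw [hsm _ _ h']; exact H1 _ _) hd
    rw [← hRε] at this
    refine ⟨this.1, fun j => ?_⟩
    have e1 := congrFun (hsm _ _ h) j
    have e2 := congrFun (hsm _ _ h') j
    simp only [Pi.smul_apply, smul_eq_mul, Pi.sub_apply] at e1 e2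
    rw [← e1, ← e2]; exact this.2 j
  have sumX : ∀ A ∈ Gset m, ∀ y, ∑ x ∈ CC y, (ω x)⁻¹ * qw (CC y) (fun k => cX A y k.rev) x
      ≤ 4 ^ m * K := by
    intro A hA y
    apply sum_qw_le m _ K hK
    intro z hz
    refine le_trans (sum_le_sum_of_subset_of_nonneg ?_ (fun x _ _ => (inv_pos.2 (hω x)).le)) (H3 z)
    intro x hx
    simp only [CC, mem_filter, mem_univ, true_and] at hx hz ⊢
    have hd : ‖p x y - p z y‖ ≤ 2 * (m + 1) * ε := by
      refine (hA.2 _).trans (mul_le_mul_of_nonneg_left ?_ (by positivity))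
      rw [pi_norm_le_iff_of_nonneg hε.le]
      intro j
      have := hx.2 j.rev
      simp only [Fin.rev_rev, cX] at this
      rw [dotProduct_sub]
      exact floor_eq_close _ _ _ hε this
    obtain ⟨c1, c2⟩ := hclose x y z y hx.1 hz hd
    refine ⟨?_, fun j => ?_⟩
    · rw [abs_sub_comm]; convert c1 using 2; ring
    · rw [abs_sub_comm]; convert c2 j using 2; ring
  have sumY : ∀ M ∈ Uset m, ∀ x, ∑ y ∈ DD x, (ω y)⁻¹ * qw (DD x) (cY M x) y ≤ 4 ^ m * K := by
    intro M hM x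
    apply sum_qw_le m _ K hK
    intro z hz
    refine le_trans (sum_le_sum_of_subset_of_nonneg ?_ (fun x _ _ => (inv_pos.2 (hω x)).le)) (H3 z)
    intro y hy
    simp only [DD, mem_filter, mem_univ, true_and] at hy hz ⊢
    have hd : ‖p x y - p x z‖ ≤ 2 * (m + 1) * ε := by
      rw [← hβ M hM (p x y), ← hβ M hM (p x z), ← map_sub]
      refine (Tm_le hM _).trans ?_
      have : ‖β M (p x y) - β M (p x z)‖ ≤ ε := by
        rw [pi_norm_le_iff_of_nonneg hε.le]
        intro j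
        exact floor_eq_close _ _ _ hε (hy.2 j)
      have hm : (0 : ℝ) ≤ m := Nat.cast_nonneg _
      nlinarith [mul_nonneg hm hε.le]
    obtain ⟨c1, c2⟩ := hclose x y x z hy.1 hz hd
    refine ⟨?_, fun j => ?_⟩
    · convert c1 using 2; ring
    · convert c2 j using 2; ring
  have hpair : ∀ e ∈ E, ∀ M ∈ Uset m, (1 / (Λ₀ / ε)) ^ m ≤
      qw (CC e.2) (fun k => cX (psi (p e.1 e.2) M) e.2 k.rev) e.1 * qw (DD e.1) (cY M e.1) e.2 := by
    rintro ⟨x, y⟩ he M hM
    apply qw_mul_qw (CC y) (DD x) (cX (psi (p x y) M) y) (cY M x) x y (by simp [CC, he])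
      (by simp [DD, he]) _ (by positivity)
    intro k x' hx' y' hy' h1 h2 s hs hx hy
    simp only [CC, DD, mem_filter, mem_univ, true_and] at hx' hy'
    have hG := psi_mem hM (p x y) (hp1 _ _ he)
    have hd2 : ∀ x₁ y₁ x₂ y₂, (x₁, y₁) ∈ E → (x₂, y₂) ∈ E → ∀ i, |(p x₁ y₁ - p x₂ y₂) i| ≤ 2 := by
      intro x₁ y₁ x₂ y₂ e1 e2 i
      have := abs_le.1 (hp1 _ _ e1 i)
      have := abs_le.1 (hp1 _ _ e2 i)
      rw [Pi.sub_apply, abs_le]; constructor <;> linarith
    have hm : (0 : ℝ) ≤ m := Nat.cast_nonneg _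
    refine pair_bound (fun j => psi (p x y) M j ⬝ᵥ p x y) (fun j => psi (p x y) M j ⬝ᵥ p x' y)
      (β M (p x y)) (β M (p x y')) ε R₁ (4 / κ ^ 4) k hε hε1 ?_ ?_ h1 h2 ?_ s hs hx hy
    · intro j
      rw [← dotProduct_sub]
      have hb := hG.1
      rw [mem_closedBall_zero_iff] at hb
      refine (abs_dot_le _ _ (2 * (m + 1)) 2 (fun i => ?_) (hd2 _ _ _ _ hx' he)).trans ?_
      · exact (norm_le_pi_norm (psi (p x y) M j) i).trans
          ((norm_le_pi_norm (psi (p x y) M) j).trans hb)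
      · rw [hR₁]; nlinarith
    · intro j
      have h3 := norm_le_Tm hM (β M (p x y') - β M (p x y))
      rw [map_sub, hβ M hM, hβ M hM] at h3
      have h4 : ‖p x y' - p x y‖ ≤ 2 := by
        rw [pi_norm_le_iff_of_nonneg (by norm_num)]
        exact hd2 _ _ _ _ hy' he
      have h5 : |(β M (p x y') - β M (p x y)) j| ≤ ‖β M (p x y') - β M (p x y)‖ :=
        norm_le_pi_norm (β M (p x y') - β M (p x y)) j
      rw [Pi.sub_apply] at h5
      rw [hR₁]; nlinarith
    · have e1 : ∑ j, (psi (p x y) M j ⬝ᵥ p x' y - psi (p x y) M j ⬝ᵥ p x y) *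
          (β M (p x y') j - β M (p x y) j) = (p x y' - p x y) ⬝ᵥ Ql (p x y) (p x' y - p x y) := by
        conv_rhs => rw [← hβ M hM (p x y'), ← hβ M hM (p x y), ← map_sub, dot_Tm, hβ M hM (p x y)]
        apply sum_congr rfl
        intro j _
        rw [← dotProduct_sub, psi_apply, Ql_symm, Pi.sub_apply]
      rw [e1]
      have := three_chain (t y - t x) (t y - t x') (t y' - t x) ε κ (p x y) (p x' y) (p x y') hε hκ
        hκ1 (H2 _ he).2.1 (H2 _ hx').2.1 (H2 _ hy').2.1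
        (by rw [hsm _ _ he]; exact (H2 _ he).1) (by rw [hsm _ _ hx']; exact (H2 _ hx').1)
        (by rw [hsm _ _ hy']; exact (H2 _ hy').1)
        (by rw [hsm _ _ he]; exact H1 _ _) (by rw [hsm _ _ hx']; exact H1 _ _)
        (by rw [hsm _ _ hy']; exact H1 _ _)
        (by
          rw [hsm _ _ he, hsm _ _ hx', hsm _ _ hy']
          have := H1 x' y'
          rw [show t y - t x' + (t y' - t x) - (t y - t x) = t y' - t x' by ring,
            show u y - u x' + (u y' - u x) - (u y - u x) = u y' - u x' by abel]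
          exact this)
      calc _ ≤ 4 * ε / κ ^ 4 := this
        _ = _ := by ring
  set B : ℝ := lam * (4 ^ m * K) * ∑ x, ω x with hB
  have hB0 : 0 ≤ B := mul_nonneg (by positivity) (sum_nonneg fun x _ => (hω x).le)
  have main := avg_bound volume E (Uset m) (Gset m) meas_U meas_G
    (fun e A => ENNReal.ofReal (lam * (ω e.2 * ((ω e.1)⁻¹ * qw (CC e.2) (fun k => cX A e.2 k.rev) e.1))))
    (fun e M => ENNReal.ofReal (lam * (ω e.1 * ((ω e.2)⁻¹ * qw (DD e.1) (cY M e.1) e.2))))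
    (fun e => psi (p e.1 e.2)) (ENNReal.ofReal ((m + 1) ^ m)) (ENNReal.ofReal B) (ENNReal.ofReal B)
    (by
      intro e _
      have h1 : Measurable (fun c : Fin m → α → ℤ => ENNReal.ofReal
          (lam * (ω e.2 * ((ω e.1)⁻¹ * qw (CC e.2) c e.1)))) := Measurable.of_discrete
      have h2 : Measurable (fun (A : Fin m → Fin m → ℝ) (k : Fin m) => cX A e.2 k.rev) := by
        refine measurable_pi_lambda _ fun k => measurable_pi_lambda _ fun x => ?_
        apply Measurable.floor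
        unfold dotProduct
        fun_prop
      exact h1.comp h2)
    (fun e _ => (psi (p e.1 e.2)).continuous_of_finiteDimensional.measurable)
    (fun e he => map_psi _ (hp1 _ _ he))
    (fun e he M hM => psi_mem hM _ (hp1 _ _ he))
    (by
      intro e he M hM
      have h1 := hpair e he M hM
      have q1 := qw_nonneg (CC e.2) (fun k => cX (psi (p e.1 e.2) M) e.2 k.rev) e.1
      have q2 := qw_nonneg (DD e.1) (cY M e.1) e.2
      have w1 := hω e.1
      have w2 := hω e.2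
      rw [← ENNReal.ofReal_add (by positivity) (by positivity), ENNReal.one_le_ofReal]
      apply one_le_add_of_mul _ _ (by positivity) (by positivity)
      have e2 : lam * lam * (1 / (Λ₀ / ε)) ^ m = 1 := by
        rw [hlam, ← mul_pow, ← mul_pow, ← mul_pow]
        have s1 : Real.sqrt Λ₀ * Real.sqrt Λ₀ = Λ₀ := Real.mul_self_sqrt hΛ₀pos.le
        have s2 : Real.sqrt ε * Real.sqrt ε = ε := Real.mul_self_sqrt hε.le
        have s3 : 0 < Real.sqrt ε := Real.sqrt_pos.2 hε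
        have : Real.sqrt Λ₀ * (1 / Real.sqrt ε) * (Real.sqrt Λ₀ * (1 / Real.sqrt ε)) *
            (1 / (Λ₀ / ε)) = 1 := by
          have : Real.sqrt Λ₀ * (1 / Real.sqrt ε) * (Real.sqrt Λ₀ * (1 / Real.sqrt ε)) =
              (Real.sqrt Λ₀ * Real.sqrt Λ₀) / (Real.sqrt ε * Real.sqrt ε) := by field_simp
          rw [this, s1, s2]; field_simp
        rw [this, one_pow]
      calc (1 : ℝ) = lam * lam * (1 / (Λ₀ / ε)) ^ m := e2.symm
        _ ≤ lam * lam * (_ * _) := mul_le_mul_of_nonneg_left h1 (by positivity)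
        _ = _ := by field_simp)
    (by
      intro A hA
      rw [← ENNReal.ofReal_sum_of_nonneg (fun e _ => by
        have := qw_nonneg (CC e.2) (fun k => cX A e.2 k.rev) e.1
        have w1 := hω e.1
        have w2 := hω e.2
        positivity)]
      apply ENNReal.ofReal_le_ofReal
      rw [← mul_sum, hB, mul_assoc lam]
      apply mul_le_mul_of_nonneg_left _ hlam0
      rw [sum_finset_product_right E univ CC (by simp [CC])
        (f := fun e => ω e.2 * ((ω e.1)⁻¹ * qw (CC e.2) (fun k => cX A e.2 k.rev) e.1)), mul_sum]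
      apply sum_le_sum
      intro y _
      simp only
      rw [← mul_sum, mul_comm]
      exact mul_le_mul_of_nonneg_right (sumX A hA y) (hω y).le)
    (by
      intro M hM
      rw [← ENNReal.ofReal_sum_of_nonneg (fun e _ => by
        have := qw_nonneg (DD e.1) (cY M e.1) e.2
        have w1 := hω e.1
        have w2 := hω e.2
        positivity)]
      apply ENNReal.ofReal_le_ofReal
      rw [← mul_sum, hB, mul_assoc lam]
      apply mul_le_mul_of_nonneg_left _ hlam0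
      rw [sum_finset_product E univ DD (by simp [DD])
        (f := fun e => ω e.1 * ((ω e.2)⁻¹ * qw (DD e.1) (cY M e.1) e.2)), mul_sum]
      apply sum_le_sum
      intro x _
      simp only
      rw [← mul_sum, mul_comm]
      exact mul_le_mul_of_nonneg_right (sumY M hM x) (hω x).le)
  have hfin : ENNReal.ofReal ((m + 1) ^ m) * (ENNReal.ofReal B * volume (Gset m)) +
      ENNReal.ofReal B * volume (Uset m) ≠ ∞ := by
    have := (vol_G_lt (m := m)).ne
    have := (vol_U_lt (m := m)).ne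
    finiteness
  have main2 := ENNReal.toReal_mono hfin main
  rw [ENNReal.toReal_add (by have := (vol_G_lt (m := m)).ne; finiteness)
    (by have := (vol_U_lt (m := m)).ne; finiteness)] at main2
  simp only [ENNReal.toReal_mul, ENNReal.toReal_natCast] at main2
  rw [ENNReal.toReal_ofReal (by positivity), ENNReal.toReal_ofReal hB0] at main2
  have : (E.card : ℝ) ≤ ((m + 1) ^ m * (volume (Gset m)).toReal / (volume (Uset m)).toReal + 1) * B := by
    rw [← mul_le_mul_iff_left₀ hU0]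
    refine main2.trans (le_of_eq ?_)
    field_simp
  refine this.trans (le_of_eq ?_)
  rw [hB, hlam]; ring

end Pool.Agent.H900Z
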