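import Pool.Agent.H900Z.Main

set_option autoImplicit false
open Finset Matrix

namespace Pool.Agent.H900Z

open Classical in
/-- number of points in the same cell -/
noncomputable def mult {α γ : Type*} [Fintype α] (cell : α → γ) (x : α) : ℝ :=
  ((univ.filter (fun y => cell y = cell x)).card : ℝ)

lemma mult_pos {α γ : Type*} [Fintype α] (cell : α → γ) (x : α) : 0 < mult cell x := by
  classical
  unfold mult
  exact_mod_cast card_pos.2 ⟨x, by simp⟩

lemma cell_sum {α γ : Type*} [Fintype α] (cell : α → γ) (S : Finset α) (T : Finset γ)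
    (h : ∀ x ∈ S, cell x ∈ T) : ∑ x ∈ S, (mult cell x)⁻¹ ≤ T.card := by
  classical
  rw [← sum_fiberwise_of_maps_to h]
  have : ∀ c ∈ T, ∑ x ∈ S with cell x = c, (mult cell x)⁻¹ ≤ 1 := by
    intro c _
    have e : ∑ x ∈ S with cell x = c, (mult cell x)⁻¹ =
        ((S.filter (fun x => cell x = c)).card : ℝ) *
          (((univ.filter (fun y => cell y = c)).card : ℝ))⁻¹ := by
      rw [← nsmul_eq_mul, ← sum_const]
      apply sum_congr rfl
      intro x hx
      unfold mult
      rw [(mem_filter.1 hx).2]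
    rw [e]
    apply mul_inv_le_one_of_le₀ _ (Nat.cast_nonneg _)
    exact_mod_cast card_le_card (filter_subset_filter _ (subset_univ _))
  simpa using sum_le_card_nsmul _ _ _ this

lemma local_sum {α : Type*} [Fintype α] {d : ℕ} (φ : α → Fin d → ℝ) (η ρ : ℝ) (hη : 0 < η)
    (hρ : 0 ≤ ρ) (x₀ : α) (S : Finset α) (hS : ∀ x ∈ S, ∀ i, |φ x i - φ x₀ i| ≤ ρ) :
    ∑ x ∈ S, (mult (fun x i => ⌊φ x i / η⌋) x)⁻¹ ≤ (2 * ρ / η + 3) ^ d := by
  set n : ℕ := ⌈ρ / η⌉₊ with hn
  have hn1 : ρ / η ≤ n := Nat.le_ceil _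
  have hn2 : (n : ℝ) < ρ / η + 1 := Nat.ceil_lt_add_one (by positivity)
  refine (cell_sum _ S (Fintype.piFinset fun i => Icc (⌊φ x₀ i / η⌋ - n) (⌊φ x₀ i / η⌋ + n)) ?_).trans ?_
  · intro x hx
    rw [Fintype.mem_piFinset]
    intro i
    have h1 : |φ x i / η - φ x₀ i / η| ≤ n := by
      rw [← sub_div, abs_div, abs_of_pos hη]
      exact (div_le_div_of_nonneg_right (hS x hx i) hη.le).trans hn1
    rw [abs_le] at h1
    rw [mem_Icc]
    constructor
    · rw [← Int.floor_sub_natCast]; apply Int.floor_le_floor; linarith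
    · rw [← Int.floor_add_natCast]; apply Int.floor_le_floor; linarith
  · rw [Fintype.card_piFinset]
    have : ∀ i : Fin d, (Icc (⌊φ x₀ i / η⌋ - n) (⌊φ x₀ i / η⌋ + n)).card = 2 * n + 1 := by
      intro i; rw [Int.card_Icc]; omega
    simp only [this, prod_const, card_univ, Fintype.card_fin]
    push_cast
    apply pow_le_pow_left₀ (by positivity)
    have : 2 * ρ / η = 2 * (ρ / η) := by ring
    linarith

lemma dist_sq_eq {d : ℕ} (x y : EuclideanSpace ℝ (Fin d)) : dist x y ^ 2 = ∑ i, (y i - x i) ^ 2 := by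
  rw [dist_comm, EuclideanSpace.dist_eq, Real.sq_sqrt (sum_nonneg fun _ _ => sq_nonneg _)]
  simp only [Real.dist_eq, sq_abs]

lemma coord_le {d : ℕ} (x y : EuclideanSpace ℝ (Fin d)) (i : Fin d) : |y i - x i| ≤ dist x y := by
  apply abs_le_of_sq_le_sq' _ dist_nonneg |>.elim (fun a b => abs_le.2 ⟨a, b⟩)
  rw [dist_sq_eq]
  exact single_le_sum (f := fun i => (y i - x i) ^ 2) (fun _ _ => sq_nonneg _) (mem_univ i)

open Classical in
lemma antipodal_bound (m : ℕ) : ∃ R C : ℝ, 0 < R ∧ 0 < C ∧ ∀ (α : Type) [Fintype α]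
    (φ : α → EuclideanSpace ℝ (Fin (m + 1))) (ε η : ℝ), 0 < ε → ε ≤ 1 / 2 → 0 < η →
    (∀ x y, dist (φ x) (φ y) ≤ 1) →
    ((univ.filter (fun e : α × α => 1 - ε ≤ dist (φ e.1) (φ e.2))).card : ℝ) ≤
      C * (2 * (R * ε) / η + 3) ^ (m + 1) * (1 / Real.sqrt ε) ^ m *
        ∑ x, mult (fun x i => ⌊φ x i / η⌋) x := by
  have hm : (0 : ℝ) ≤ m := Nat.cast_nonneg _
  obtain ⟨R, C, hR, hC, h⟩ := abstract_bound m (1 / (2 * (m + 1))) (by positivity)
    (by rw [div_le_one (by positivity)]; linarith)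
  refine ⟨R, 2 * (m + 1) * C, hR, by positivity, ?_⟩
  intro α _ φ ε η hε hε2 hη hd
  set κ : ℝ := 1 / (2 * (m + 1)) with hκ
  let E : Fin (m + 1) × Bool → Finset (α × α) := fun is => univ.filter (fun e =>
    1 - ε ≤ dist (φ e.1) (φ e.2) ∧
    κ ≤ (if is.2 then 1 else -1) * φ e.2 is.1 - (if is.2 then 1 else -1) * φ e.1 is.1 ∧
    ∀ j : Fin m, |φ e.2 (is.1.succAbove j) - φ e.1 (is.1.succAbove j)| ≤
      (if is.2 then 1 else -1) * φ e.2 is.1 - (if is.2 then 1 else -1) * φ e.1 is.1)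
  have hcover : univ.filter (fun e : α × α => 1 - ε ≤ dist (φ e.1) (φ e.2)) ⊆ univ.biUnion E := by
    intro e he
    have he' := (mem_filter.1 he).2
    obtain ⟨i, -, hi⟩ := exists_max_image univ (fun i => |φ e.2 i - φ e.1 i|) univ_nonempty
    have h1 : κ ≤ |φ e.2 i - φ e.1 i| := by
      have h2 : dist (φ e.1) (φ e.2) ^ 2 ≤ (m + 1) * |φ e.2 i - φ e.1 i| ^ 2 := by
        rw [dist_sq_eq]
        have : ∀ j ∈ (univ : Finset (Fin (m + 1))), (φ e.2 j - φ e.1 j) ^ 2 ≤
            |φ e.2 i - φ e.1 i| ^ 2 := fun j hj => by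
          rw [← sq_abs]; exact pow_le_pow_left₀ (abs_nonneg _) (hi j hj) 2
        simpa using sum_le_card_nsmul _ _ _ this
      have h3 : (1 / 2 : ℝ) ^ 2 ≤ dist (φ e.1) (φ e.2) ^ 2 :=
        pow_le_pow_left₀ (by norm_num) (by linarith) 2
      apply (sq_le_sq₀ (by positivity) (abs_nonneg _)).1
      have h4 : κ ^ 2 * (m + 1) ≤ (1 / 2 : ℝ) ^ 2 := by
        rw [hκ, div_pow, div_mul_eq_mul_div, div_le_iff₀ (by positivity)]; nlinarith
      rw [← mul_le_mul_iff_left₀ (show (0 : ℝ) < m + 1 by positivity)]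
      linarith
    rw [mem_biUnion]
    rcases le_total 0 (φ e.2 i - φ e.1 i) with hs | hs
    · refine ⟨(i, true), mem_univ _, ?_⟩
      rw [abs_of_nonneg hs] at h1
      simp only [E, mem_filter, mem_univ, true_and, if_true, one_mul]
      refine ⟨he', h1, fun j => ?_⟩
      have := hi (i.succAbove j) (mem_univ _)
      rwa [abs_of_nonneg hs] at this
    · refine ⟨(i, false), mem_univ _, ?_⟩
      rw [abs_of_nonpos hs] at h1
      simp only [E, mem_filter, mem_univ, true_and, Bool.false_eq_true, if_false]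
      refine ⟨he', by linarith, fun j => ?_⟩
      have := hi (i.succAbove j) (mem_univ _)
      rw [abs_of_nonpos hs] at this
      linarith
  have hE : ∀ is ∈ (univ : Finset (Fin (m + 1) × Bool)), ((E is).card : ℝ) ≤
      C * (2 * (R * ε) / η + 3) ^ (m + 1) * (1 / Real.sqrt ε) ^ m *
        ∑ x, mult (fun x i => ⌊φ x i / η⌋) x := by
    rintro ⟨i, b⟩ _
    set s : ℝ := if b then 1 else -1 with hs
    have hs2 : s ^ 2 = 1 := by rw [hs]; split_ifs <;> norm_num
    have hs1 : |s| = 1 := by rw [hs]; split_ifs <;> norm_num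
    have hD : ∀ x y, (s * φ y i - s * φ x i) ^ 2 +
        ((fun j => φ y (i.succAbove j)) - fun j => φ x (i.succAbove j)) ⬝ᵥ
        ((fun j => φ y (i.succAbove j)) - fun j => φ x (i.succAbove j)) = dist (φ x) (φ y) ^ 2 := by
      intro x y
      rw [dist_sq_eq, Fin.sum_univ_succAbove _ i, ← mul_sub, mul_pow, hs2, one_mul]
      congr 1
      simp only [dotProduct, Pi.sub_apply, sq]
    apply h α (fun x => s * φ x i) (fun x j => φ x (i.succAbove j)) (E (i, b)) ε _ _ hε
      (by linarith) (by positivity) (fun x => mult_pos _ x)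
    · intro x y
      rw [hD]
      exact pow_le_one₀ dist_nonneg (hd x y)
    · intro e he
      simp only [E, mem_filter, mem_univ, true_and] at he
      refine ⟨?_, he.2.1, he.2.2⟩
      rw [hD]
      exact pow_le_pow_left₀ (by linarith) he.1 2
    · intro x₀
      apply local_sum (fun x i => φ x i) η (R * ε) hη (by positivity) x₀
      intro x hx j
      have hx' := (mem_filter.1 hx).2
      rcases Fin.eq_self_or_eq_succAbove i j with rfl | ⟨j, rfl⟩
      · have := hx'.1
        rwa [← mul_sub, abs_mul, hs1, one_mul] at this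
      · exact hx'.2 j
  calc _ ≤ ((univ.biUnion E).card : ℝ) := by exact_mod_cast card_le_card hcover
    _ ≤ ∑ is, ((E is).card : ℝ) := by exact_mod_cast card_biUnion_le
    _ ≤ _ := by
        refine (sum_le_card_nsmul _ _ _ hE).trans (le_of_eq ?_)
        simp only [card_univ, Fintype.card_prod, Fintype.card_fin, Fintype.card_bool, nsmul_eq_mul]
        push_cast; ring

open Classical in
lemma core (m : ℕ) : ∃ c₁ c₂ : ℝ, 0 < c₁ ∧ 0 < c₂ ∧ ∀ (α : Type) [Fintype α]
    (φ : α → EuclideanSpace ℝ (Fin (m + 1))) (ε₁ ε₂ : ℝ), 0 < ε₁ → ε₁ ≤ ε₂ → ε₂ < 1 →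
    (∀ x y, dist (φ x) (φ y) ≤ 1) → c₁ * (1 / ε₁) ^ (m + 1) ≤ Fintype.card α →
    c₂ * ε₁ ^ (m + 1) * (1 / Real.sqrt ε₂) ^ (m + 2) *
      ((univ.filter (fun e : α × α => 1 - ε₂ ≤ dist (φ e.1) (φ e.2))).card : ℝ) ≤
      ((univ.filter (fun e : α × α => e.1 ≠ e.2 ∧ dist (φ e.1) (φ e.2) ≤ ε₁)).card : ℝ) := by
  have hm : (0 : ℝ) ≤ m := Nat.cast_nonneg _
  obtain ⟨R, C, hR, hC, h⟩ := antipodal_bound m
  set C₁ : ℝ := C * (2 * R * (m + 1) + 3) ^ (m + 1) + (5 * (m + 1)) ^ (m + 1) * 2 ^ (m + 2) with hC₁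
  have hC₁0 : 0 < C₁ := by positivity
  refine ⟨2 * (5 * (m + 1)) ^ (m + 1), 1 / (2 * C₁), by positivity, by positivity, ?_⟩
  intro α _ φ ε₁ ε₂ h1 h12 h2 hd hcard
  have h2' : 0 < ε₂ := lt_of_lt_of_le h1 h12
  set η : ℝ := ε₁ / (m + 1) with hη
  have hη0 : 0 < η := by positivity
  set ω : α → ℝ := mult (fun x i => ⌊φ x i / η⌋) with hω
  set A : ℝ := ((univ.filter (fun e : α × α => 1 - ε₂ ≤ dist (φ e.1) (φ e.2))).card : ℝ) with hA
  set N : ℝ := ((univ.filter (fun e : α × α => e.1 ≠ e.2 ∧ dist (φ e.1) (φ e.2) ≤ ε₁)).card : ℝ)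
    with hN
  set n : ℝ := (Fintype.card α : ℝ) with hn
  set L : ℝ := (5 * (m + 1)) ^ (m + 1) * (1 / ε₁) ^ (m + 1) with hL
  have hL0 : 0 < L := by positivity
  have hn2 : 2 * L ≤ n := by rw [hL, ← mul_assoc]; exact hcard
  have hn0 : 0 < n := by linarith
  have hne : Nonempty α := by
    rw [← Fintype.card_pos_iff]; rw [hn] at hn0; exact_mod_cast hn0
  obtain ⟨x₀⟩ := hne
  have hglob : ∑ x, (ω x)⁻¹ ≤ L := by
    refine (local_sum (fun x i => φ x i) η 1 hη0 zero_le_one x₀ univ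
      (fun x _ i => (coord_le _ _ i).trans (hd _ _))).trans ?_
    rw [hL, ← mul_pow]
    apply pow_le_pow_left₀ (by positivity)
    rw [hη, mul_one_div, le_div_iff₀ h1]
    field_simp
    nlinarith
  have hS0 : 0 < ∑ x, ω x := sum_pos (fun x _ => mult_pos _ x) ⟨x₀, mem_univ _⟩
  have hCS : n ^ 2 ≤ L * ∑ x, ω x := by
    have := sq_sum_div_le_sum_sq_div univ (fun _ : α => (1 : ℝ)) (g := ω) (fun x _ => mult_pos _ x)
    simp only [sum_const, card_univ, nsmul_eq_mul, mul_one, one_pow, one_div] at this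
    rw [div_le_iff₀ hS0] at this
    exact this.trans (mul_le_mul_of_nonneg_right hglob hS0.le)
  have hSN : ∑ x, ω x ≤ N + n := by
    have e : ∑ x, ω x = ((univ.filter (fun e : α × α =>
        (fun i => ⌊φ e.2 i / η⌋) = fun i => ⌊φ e.1 i / η⌋)).card : ℝ) := by
      rw [card_filter, ← univ_product_univ, sum_product]
      push_cast
      apply sum_congr rfl
      intro x _
      rw [hω]; unfold mult
      rw [card_filter]; push_cast
      apply sum_congr rfl
      intro y _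
      congr
    rw [e, hN, hn, ← card_univ, ← diag_card (univ : Finset α), ← Nat.cast_add, Nat.cast_le]
    refine le_trans (card_le_card ?_) (card_union_le _ _)
    intro e he
    have he' := (mem_filter.1 he).2
    rw [mem_union]
    by_cases hxy : e.1 = e.2
    · right; simp [hxy]
    · left
      refine mem_filter.2 ⟨mem_univ _, hxy, ?_⟩
      apply (sq_le_sq₀ dist_nonneg h1.le).1
      rw [dist_sq_eq]
      have : ∀ j ∈ (univ : Finset (Fin (m + 1))), (φ e.2 j - φ e.1 j) ^ 2 ≤ η ^ 2 := fun j _ => by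
        rw [← sq_abs]
        exact pow_le_pow_left₀ (abs_nonneg _) (floor_eq_close _ _ _ hη0 (congrFun he' j)) 2
      refine (sum_le_card_nsmul _ _ _ this).trans ?_
      simp only [card_univ, Fintype.card_fin, nsmul_eq_mul]
      push_cast
      rw [hη, div_pow, ← mul_div_assoc, div_le_iff₀ (by positivity)]
      nlinarith [mul_nonneg (sq_nonneg ε₁) hm, mul_nonneg (sq_nonneg ε₁) (sq_nonneg (m : ℝ))]
  have hS2 : ∑ x, ω x ≤ 2 * N := by
    have : 2 * n ≤ ∑ x, ω x := by
      rw [← mul_le_mul_iff_right₀ hL0]; nlinarith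
    linarith
  set s := Real.sqrt ε₂ with hs
  have hs0 : 0 < s := Real.sqrt_pos.2 h2'
  have hs2 : s ^ 2 = ε₂ := Real.sq_sqrt h2'.le
  have key : ε₁ ^ (m + 1) * (1 / s) ^ (m + 2) * A ≤ C₁ * ∑ x, ω x := by
    rcases le_total ε₂ (1 / 2) with hc | hc
    · have h3 := h α φ ε₂ η h2' hc hη0 hd
      have h4 : (2 * (R * ε₂) / η + 3) ^ (m + 1) ≤ ((2 * R * (m + 1) + 3) * (ε₂ / ε₁)) ^ (m + 1) := by
        apply pow_le_pow_left₀ (by positivity)
        have : 1 ≤ ε₂ / ε₁ := by rwa [one_le_div h1]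
        have e : 2 * (R * ε₂) / η = 2 * R * (m + 1) * (ε₂ / ε₁) := by rw [hη]; field_simp
        rw [e]; nlinarith
      calc _ ≤ ε₁ ^ (m + 1) * (1 / s) ^ (m + 2) * (C * ((2 * R * (m + 1) + 3) * (ε₂ / ε₁)) ^ (m + 1) *
              (1 / s) ^ m * ∑ x, ω x) := by
            apply mul_le_mul_of_nonneg_left _ (by positivity)
            refine h3.trans ?_
            gcongr
        _ = C * (2 * R * (m + 1) + 3) ^ (m + 1) * ∑ x, ω x := by
            rw [← hs2, mul_pow]
            simp only [div_pow, one_pow, ← pow_mul]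
            field_simp
            ring
        _ ≤ _ := by
            apply mul_le_mul_of_nonneg_right _ hS0.le
            rw [hC₁]
            have : (0 : ℝ) ≤ (5 * (m + 1)) ^ (m + 1) * 2 ^ (m + 2) := by positivity
            linarith
    · have h3 : A ≤ n ^ 2 := by
        rw [hA, hn, sq]
        norm_cast
        rw [← Fintype.card_prod, ← card_univ]
        exact card_le_card (subset_univ _)
      have h4 : 1 / s ≤ 2 := by
        rw [div_le_iff₀ hs0]
        by_contra hh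
        push Not at hh
        nlinarith
      calc _ ≤ ε₁ ^ (m + 1) * 2 ^ (m + 2) * (L * ∑ x, ω x) := by
            have := h3.trans hCS
            gcongr
        _ = (5 * (m + 1)) ^ (m + 1) * 2 ^ (m + 2) * ∑ x, ω x := by
            rw [hL]
            simp only [div_pow, one_pow]
            field_simp
        _ ≤ _ := by
            apply mul_le_mul_of_nonneg_right _ hS0.le
            rw [hC₁]
            have : (0 : ℝ) ≤ C * (2 * R * (m + 1) + 3) ^ (m + 1) := by positivity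
            linarith
  calc _ = 1 / (2 * C₁) * (ε₁ ^ (m + 1) * (1 / s) ^ (m + 2) * A) := by ring
    _ ≤ 1 / (2 * C₁) * (C₁ * (2 * N)) := by
        apply mul_le_mul_of_nonneg_left _ (by positivity)
        exact key.trans (mul_le_mul_of_nonneg_left hS2 hC₁0.le)
    _ = N := by field_simp

end Pool.Agent.H900Z
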